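import Pool.Agent.H403R3.Final

/-!
# (-1)-curves that are not (-1)-Weyl lines on blow-ups of `ℙⁿ` in `n + 5` general points

For every `n ≥ 4` and general `p 0, …, p (n + 4) ∈ ℙⁿ` the blow-up of `ℙⁿ` at these points contains
a (-1)-curve of the class
`(3 n - 2) h - 2 (e 0 + … + e 4) - 3 (e 5 + … + e n) - 2 (e (n+1) + e (n+2) + e (n+3)) - e (n+4)`,
which is not in the orbit of a class `h - e i - e j` under the Weyl group.
-/

namespace Pool.Agent.Results.MP_04a7d6_ag.NonWeylCurvesNFive

open Pool.Agent.H403R3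

/-- For every `n ≥ 4` and general `p 0, …, p (n + 4)` the `p i` are pairwise distinct points of `ℙⁿ`
and the blow-up of `ℙⁿ` at these points contains a (-1)-curve of degree `3 n - 2` whose class is not
in the Weyl group orbit of the classes `h - e i - e j`. -/
theorem result (n : ℕ) (hn : 4 ≤ n) :
    Generally n (n + 5) fun p => Distinct p ∧ ∃ γ : RatCurve p, γ.IsMinusOneCurve ∧
      γ.cls = (3 * (n : ℤ) - 2, mult n) ∧ ¬ InWeylOrbit n (n + 5) γ.cls :=
  main n hn

end Pool.Agent.Results.MP_04a7d6_ag.NonWeylCurvesNFive
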